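import Pool.Agent.Helper76.SQG.Main
import Pool.Agent.Helper76.SQG.Gen

/-!
# MP_309e91_co : the size sets of unilateral equitransitive tilings by squares, for every `r`

The set of the size vectors `p 0 < ... < p (r - 1)` of the unilateral equitransitive tilings of the
plane by squares is the union of the open cones `{x a + y b : x, y > 0}` over the pairs `(a, b)` of
a finite list which is determined by an explicitly bounded finite search.
-/

set_option autoImplicit false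

namespace Pool.Agent.Results.MP_309e91_co.ExplicitCones

open Pool.Agent.Helper76.SQG (Grid)

/-- `T` is a closed square of side `s` in the plane: `b` is a corner, and the sides at `b` have the
directions `a` and `i a`. -/
def SquareOfSide (T : Set ℂ) (s : ℝ) : Prop :=
  0 < s ∧ ∃ b a : ℂ, ‖a‖ = 1 ∧
    T = {z | ∃ x y : ℝ, (0 ≤ x ∧ x ≤ s) ∧ (0 ≤ y ∧ y ≤ s) ∧ z = b + a * (x + y * Complex.I)}

/-- A tiling of the plane by closed squares. -/
structure IsTiling (𝒯 : Set (Set ℂ)) : Prop where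
  square : ∀ T ∈ 𝒯, ∃ s, SquareOfSide T s
  cover : ∀ z : ℂ, ∃ T ∈ 𝒯, z ∈ T
  disjoint : ∀ T ∈ 𝒯, ∀ T' ∈ 𝒯, T ≠ T' → Disjoint (interior T) (interior T')

/-- The size set of a tiling. -/
def sizes (𝒯 : Set (Set ℂ)) : Set ℝ := {s | ∃ T ∈ 𝒯, SquareOfSide T s}

/-- Any two tiles of the same size are equivalent under an isometry of the plane which maps the
tiling onto itself. -/
def Equitransitive (𝒯 : Set (Set ℂ)) : Prop :=
  ∀ s : ℝ, ∀ T ∈ 𝒯, ∀ T' ∈ 𝒯, SquareOfSide T s → SquareOfSide T' s →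
    ∃ g : ℂ ≃ᵢ ℂ, (fun S : Set ℂ => g '' S) '' 𝒯 = 𝒯 ∧ g '' T = T'

/-- A vertex of the tiling: a point which lies in three or more tiles. -/
def IsVertex (𝒯 : Set (Set ℂ)) (z : ℂ) : Prop :=
  ∃ T₁ ∈ 𝒯, ∃ T₂ ∈ 𝒯, ∃ T₃ ∈ 𝒯, T₁ ≠ T₂ ∧ T₁ ≠ T₃ ∧ T₂ ≠ T₃ ∧ z ∈ T₁ ∧ z ∈ T₂ ∧ z ∈ T₃

/-- An edge of the tiling: a segment of a tile boundary that joins two vertices and contains no
other vertex. -/
def IsEdge (𝒯 : Set (Set ℂ)) (e : Set ℂ) : Prop :=
  ∃ z w : ℂ, z ≠ w ∧ IsVertex 𝒯 z ∧ IsVertex 𝒯 w ∧ e = segment ℝ z w ∧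
    (∃ T ∈ 𝒯, e ⊆ frontier T) ∧ ∀ v ∈ e, IsVertex 𝒯 v → v = z ∨ v = w

/-- A side of a square: for a description of `T` by a corner `b`, a direction `a` and the side `s`,
the segment from `b` to `b + s a`. (There are four such descriptions of a square.) -/
def IsSide (e T : Set ℂ) : Prop :=
  ∃ (s : ℝ) (b a : ℂ), 0 < s ∧ ‖a‖ = 1 ∧
    T = {z | ∃ x y : ℝ, (0 ≤ x ∧ x ≤ s) ∧ (0 ≤ y ∧ y ≤ s) ∧ z = b + a * (x + y * Complex.I)} ∧
    e = segment ℝ b (b + a * s)

/-- Unilateral: every edge of the tiling is a side of at most one tile. -/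
def Unilateral (𝒯 : Set (Set ℂ)) : Prop :=
  ∀ e, IsEdge 𝒯 e → ∀ T ∈ 𝒯, ∀ T' ∈ 𝒯, IsSide e T → IsSide e T' → T = T'

/-- The numbers `p 0 < ... < p (r - 1)` are the sizes of a unilateral equitransitive tiling of the
plane by squares. -/
def Occurs {r : ℕ} (p : Fin r → ℝ) : Prop :=
  StrictMono p ∧ ∃ 𝒯 : Set (Set ℂ), IsTiling 𝒯 ∧ Equitransitive 𝒯 ∧ Unilateral 𝒯 ∧
    Set.range p = sizes 𝒯

/-- `p` is in the open cone generated by `a` and `b`. -/
def InCone {r : ℕ} (a b : Fin r → ℤ) (p : Fin r → ℝ) : Prop :=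
  ∃ x y : ℝ, 0 < x ∧ 0 < y ∧ ∀ i, p i = a i * x + b i * y

/-- `p` and `q` are in the same cell of the arrangement of the hyperplanes with integer coefficients
whose absolute values have sum at most `B`. -/
def SameCell {r : ℕ} (B : ℤ) (p q : Fin r → ℝ) : Prop :=
  ∀ c : Fin r → ℤ, ∑ i, |c i| ≤ B → (0 < ∑ i, (c i : ℝ) * p i ↔ 0 < ∑ i, (c i : ℝ) * q i)

/-- The bound for the coefficients of the forms. -/
def bound (r : ℕ) : ℤ := (10 ^ 7 * ((r : ℤ) + 1) ^ 2) ^ (2 ^ (32 * r + 6))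

/-- The bound for the side of the grid and for the entries of the generators. -/
def gridBound (r : ℕ) : ℕ := (10 ^ 7 * (r + 1) ^ 2) ^ (2 ^ (65 * r + 14))

/-- The open cone generated by `a` and `b` lies in the cell of `q` of the arrangement of the
hyperplanes with integer coefficients whose absolute values have sum at most `B`. -/
def ConeInCell {r : ℕ} (B : ℤ) (a b : Fin r → ℤ) (q : Fin r → ℕ) : Prop :=
  ∀ c : Fin r → ℤ, ∑ i, |c i| ≤ B →
    (0 < ∑ i, c i * q i →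
      0 ≤ ∑ i, c i * a i ∧ 0 ≤ ∑ i, c i * b i ∧ 0 < ∑ i, c i * a i + ∑ i, c i * b i) ∧
    (∑ i, c i * q i = 0 → ∑ i, c i * a i = 0 ∧ ∑ i, c i * b i = 0)

/-- THE LIST OF THE CONES: an explicitly bounded finite search. The integer vectors `a`, `b` have
entries at most `gridBound r` in absolute value, and their open cone lies in the cell of the size
vector `q` of a unilateral equitransitive tiling of a toroidal `N × N` grid by squares,
`N ≤ gridBound r`. (The list is computed by the program `search` of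
`Pool.Agent.Helper76.SQG.Search`.) -/
def Listed (r : ℕ) (a b : Fin r → ℤ) : Prop :=
  (∀ i, |a i| ≤ gridBound r ∧ |b i| ≤ gridBound r) ∧
    ∃ (N : ℕ) (q : Fin r → ℕ) (T : Finset ((ZMod N × ZMod N) × Fin r)),
      1 ≤ N ∧ N ≤ gridBound r ∧ (∀ i j, i < j → q i < q j) ∧ Grid N r q T ∧
      ConeInCell (bound r) a b q

theorem occurs_iff {r : ℕ} {p : Fin r → ℝ} : Occurs p ↔ p ∈ Helper32.SQ.Real' r := by
  constructor
  · rintro ⟨h, 𝒯, h1, h2, h3, h4⟩
    exact ⟨h, 𝒯, ⟨h1.square, h1.cover, h1.disjoint⟩, h2, h3, h4⟩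
  · rintro ⟨h, 𝒯, h1, h2, h3, h4⟩
    exact ⟨h, 𝒯, ⟨h1.square, h1.cover, h1.disjoint⟩, h2, h3, h4⟩

/-- THE SIZE SETS, FOR EVERY `r`: the points of the open cones of the list; each of them is in a
cone of the list which is a whole cell of the arrangement. -/
theorem result (r : ℕ) :
    (∀ p : Fin r → ℝ, Occurs p ↔ ∃ a b : Fin r → ℤ, Listed r a b ∧ InCone a b p) ∧
    ∀ p : Fin r → ℝ, Occurs p → ∃ a b : Fin r → ℤ, Listed r a b ∧ InCone a b p ∧
      ∀ q : Fin r → ℝ, InCone a b q ↔ SameCell (bound r) p q := by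
  have hfv : ∀ (c : Fin r → ℤ) (q : Fin r → ℕ), Helper32.SQ.fv c (fun i => (q i : ℝ)) =
      ((∑ i, c i * q i : ℤ) : ℝ) := by
    intro c q
    unfold Helper32.SQ.fv
    push_cast
    rfl
  have key : ∀ p : Fin r → ℝ, Occurs p → ∃ a b : Fin r → ℤ, Listed r a b ∧ InCone a b p ∧
      ∀ q : Fin r → ℝ, InCone a b q ↔ SameCell (bound r) p q := by
    intro p hp
    have hB1 : (1 : ℤ) ≤ Helper32.SQ.Br r := by
      have := Helper32.SQ.two_le_Br r
      omega
    obtain ⟨q, N, T, hN, hNM, hT, hq, hs⟩ := Helper76.SQG.exists_grid_of_Real (occurs_iff.1 hp)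
    obtain ⟨a₀, b₀, hab₀⟩ := Helper76.SQG.cell_cone hN hT hq
    obtain ⟨a, b, ha, hb, hab⟩ := Helper76.SQG.gen_bdd hB1 hab₀
    have hcell : ∀ p' : Fin r → ℝ, InCone a b p' ↔ SameCell (bound r) p p' := by
      intro p'
      have h1 : p' ∈ Helper32.SQ.cone a b ↔ InCone a b p' := Iff.rfl
      rw [← h1, ← hab p']
      constructor
      · intro h c hc
        exact (hs c hc).symm.trans (h c hc)
      · intro h c hc
        exact (hs c hc).trans (h c hc)
    have hmb : Helper76.SQG.mb r (Helper32.SQ.Br r) ≤ (gridBound r : ℤ) :=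
      Helper76.SQG.mb_le_Mr r
    refine ⟨a, b, ⟨fun i => ⟨(ha i).trans hmb, (hb i).trans hmb⟩, N, q, T, hN, hNM,
      fun i j hij => hq hij, hT, ?_⟩, (hcell p).2 fun c _ => Iff.rfl, hcell⟩
    intro c hc
    constructor
    · intro h0
      exact Helper76.SQG.gen_pos (fun p' hp' => (hab p').2 hp') hc
        (by rw [hfv]; exact_mod_cast h0)
    · intro h0
      exact Helper76.SQG.gen_zero (fun p' hp' => (hab p').2 hp') hc
        (by rw [hfv, h0]; simp)
  refine ⟨fun p => ⟨fun hp => ?_, ?_⟩, key⟩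
  · obtain ⟨a, b, h1, h2, -⟩ := key p hp
    exact ⟨a, b, h1, h2⟩
  · rintro ⟨a, b, ⟨-, N, q, T, hN, -, hq, hT, hc⟩, hp⟩
    have hreal := Helper76.SQG.Real_of_grid hN hT (fun i j hij => hq i j hij)
    refine occurs_iff.2 (Helper32.SQ.transfer_Real' hreal ?_)
    refine Helper76.SQG.cone_sub (a := a) (b := b) ?_ ?_ hp
    · intro c hcB h0
      rw [hfv] at h0
      exact (hc c hcB).1 (by exact_mod_cast h0)
    · intro c hcB h0
      rw [hfv] at h0
      exact (hc c hcB).2 (by exact_mod_cast h0)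

end Pool.Agent.Results.MP_309e91_co.ExplicitCones
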